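import Pool.Agent.helper81.CW.Spec2

/-!
# Project cw, part J1: Jung's theorem (simple form)
-/

namespace Pool.Agent.helper81.CW

open MeasureTheory

theorem J1 : J1_stmt := by
  intro n C hC hne hd
  obtain ⟨x₀, hx₀⟩ := hne
  set F : E n → ℝ := fun z => sSup ((fun x => ‖x - z‖) '' C) with hF
  have hcont : Continuous F :=
    hC.continuous_sSup (f := fun z x => ‖x - z‖) (by unfold Function.HasUncurry.uncurry; fun_prop)
  have hbdd : ∀ z, BddAbove ((fun x => ‖x - z‖) '' C) := fun z =>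
    (hC.image (by fun_prop)).bddAbove
  have hle : ∀ z, ∀ x ∈ C, ‖x - z‖ ≤ F z := fun z x hx => le_csSup (hbdd z) ⟨x, hx, rfl⟩
  have hatt : ∀ z, ∃ x ∈ C, ‖x - z‖ = F z := by
    intro z
    obtain ⟨x, hx, hmax⟩ := hC.exists_isMaxOn ⟨x₀, hx₀⟩
      (f := fun x => ‖x - z‖) (Continuous.continuousOn (by fun_prop))
    refine ⟨x, hx, le_antisymm (hle z x hx) (csSup_le ⟨_, ⟨x₀, hx₀, rfl⟩⟩ ?_)⟩
    rintro _ ⟨y, hy, rfl⟩
    exact hmax hy
  obtain ⟨z, hz, hmin⟩ := (isCompact_closedBall x₀ 1).exists_isMinOn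
    ⟨x₀, by simp⟩ hcont.continuousOn
  have hglob : ∀ z', F z ≤ F z' := by
    intro z'
    by_cases h : z' ∈ Metric.closedBall x₀ 1
    · exact hmin h
    · have h1 : 1 < dist z' x₀ := by simpa using h
      calc F z ≤ F x₀ := hmin (by simp)
        _ ≤ 1 := by
          obtain ⟨x, hx, e⟩ := hatt x₀
          rw [← e]
          exact hd x hx x₀ hx₀
        _ ≤ ‖x₀ - z'‖ := by
          rw [← dist_eq_norm, dist_comm]
          exact h1.le
        _ ≤ F z' := hle z' x₀ hx₀
  obtain ⟨y, hy, hyR⟩ := hatt z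
  have hR0 : 0 ≤ F z := by
    rw [← hyR]
    positivity
  refine ⟨z, F z, hR0, ?_, hle z⟩
  by_contra hlt
  push Not at hlt
  have key : ∀ t : ℝ, 0 < t → t < 1 → (F z) ^ 2 * (2 - 3 * t - t ^ 2) ≤ 1 := by
    intro t ht0 ht1
    obtain ⟨x, hx, hxe⟩ := hatt (z + t • (y - z))
    have hge : F z ≤ ‖x - (z + t • (y - z))‖ := by
      rw [hxe]
      exact hglob _
    set a := x - z with ha
    set b := y - z with hb
    have h1 : x - (z + t • (y - z)) = a - t • b := by
      rw [ha, hb]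
      abel
    rw [h1] at hge
    have h2 : (F z) ^ 2 ≤ ‖a - t • b‖ ^ 2 := by
      exact pow_le_pow_left₀ hR0 hge 2
    rw [norm_sub_sq_real, real_inner_smul_right, norm_smul, Real.norm_eq_abs, abs_of_pos ht0] at h2
    have hbR : ‖b‖ = F z := hyR
    have haR : ‖a‖ ≤ F z := hle z x hx
    have haR2 : ‖a‖ ^ 2 ≤ (F z) ^ 2 := pow_le_pow_left₀ (norm_nonneg _) haR 2
    have hin : |inner ℝ a b| ≤ (F z) ^ 2 := by
      calc |inner ℝ a b| ≤ ‖a‖ * ‖b‖ := abs_real_inner_le_norm a b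
        _ ≤ F z * F z := by
          rw [hbR]
          exact mul_le_mul_of_nonneg_right haR hR0
        _ = (F z) ^ 2 := by ring
    have hin' := neg_le_of_abs_le hin
    have hxy : ‖a - b‖ ≤ 1 := by
      have : a - b = x - y := by rw [ha, hb]; abel
      rw [this]
      exact hd x hx y hy
    have hxy2 : ‖a - b‖ ^ 2 ≤ 1 := by
      have := pow_le_pow_left₀ (norm_nonneg _) hxy 2
      simpa using this
    rw [norm_sub_sq_real, hbR] at hxy2
    rw [hbR] at h2
    -- h2 : R^2 ≤ ‖a‖^2 - 2 (t * s) + (t * R)^2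
    set s := inner ℝ a b with hs
    set R := F z with hRdef
    have h3 : s ≤ t * R ^ 2 / 2 := by
      have : 2 * (t * s) ≤ t * (t * R ^ 2) := by nlinarith
      have h4 : 2 * s ≤ t * R ^ 2 := by
        have h5 : t * (2 * s) ≤ t * (t * R ^ 2) := by linarith
        exact le_of_mul_le_mul_left h5 ht0
      linarith
    have h4 : R ^ 2 + 2 * (t * s) - (t * R) ^ 2 ≤ ‖a‖ ^ 2 := by linarith
    have h5 : -(t * R ^ 2) ≤ t * s := by
      have := mul_le_mul_of_nonneg_left hin' ht0.le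
      linarith
    have h6 : (t * R) ^ 2 = t ^ 2 * R ^ 2 := by ring
    nlinarith
  have hRpos : 0 < (F z) ^ 2 := by linarith
  set R2 := (F z) ^ 2 with hR2
  have hδ : 0 < 2 * R2 - 1 := by linarith
  set t := (2 * R2 - 1) / (8 * R2) with ht
  have ht0 : 0 < t := by positivity
  have ht8 : t * (8 * R2) = 2 * R2 - 1 := by
    rw [ht]
    field_simp
  have ht1 : t < 1 := by
    rw [ht, div_lt_one (by positivity)]
    linarith
  have h1 := key t ht0 ht1
  have h2 : t ^ 2 ≤ t := by nlinarith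
  nlinarith [mul_le_mul_of_nonneg_left h2 hRpos.le]

end Pool.Agent.helper81.CW
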